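import Mathlib
import Pool.Agent.Lib.MP_61ce55_lc.Defs
import Pool.Agent.Lib.MP_61ce55_lc.Proof

namespace Pool.Agent.Results.MP_61ce55_lc.PortfolioLowerBound

open Finset Pool.Agent.Lib.MP_61ce55_lc

/-- **Main theorem.** For every `α ≥ 1` and every number `d ≥ 2` of machines there is an
instance with `d` unrelated machines in which every `α`-approximate portfolio for the
ordered norms has at least `(1/2) d ^ (1 / (250 log (α + 1)))` elements. -/
theorem result : ∀ α : ℝ, 1 ≤ α → ∀ d : ℕ, 2 ≤ d →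
    ∃ (n : ℕ) (p : Fin d → Fin n → ℝ), 1 ≤ n ∧ (∀ i j, 0 ≤ p i j) ∧
      ∀ X : Finset (Fin d → ℝ), IsPortfolio α p X →
        1 / 2 * (d : ℝ) ^ (1 / (250 * Real.log (α + 1))) ≤ (X.card : ℝ) :=
  lower_bound

/-- The literal negation of the question: no constants `α` and `C` work. -/
theorem not_Q1 : ¬ ∃ α C : ℝ, 1 ≤ α ∧ 0 < C ∧ ∀ d n : ℕ, 2 ≤ d → 1 ≤ n →
    ∀ p : Fin d → Fin n → ℝ, (∀ i j, 0 ≤ p i j) →
      ∃ X : Finset (Fin d → ℝ), IsPortfolio α p X ∧ (#X : ℝ) ≤ C * Real.log d := by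
  rintro ⟨α, C, hα, hC, h⟩
  have hlogpos : 0 < Real.log (α + 1) := Real.log_pos (by linarith)
  set c : ℝ := 1 / (250 * Real.log (α + 1)) with hc
  have hcpos : 0 < c := by positivity
  have hlim := (isLittleO_log_rpow_atTop hcpos).bound
    (show (0 : ℝ) < 1 / (4 * C) by positivity)
  rw [Filter.eventually_atTop] at hlim
  obtain ⟨a, ha⟩ := hlim
  obtain ⟨d, hd⟩ := exists_nat_ge (max a 2)
  have hd2 : 2 ≤ d := by
    have : (2 : ℝ) ≤ d := (le_max_right _ _).trans hd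
    exact_mod_cast this
  obtain ⟨n, p, hn, hp, hX⟩ := result α hα d hd2
  obtain ⟨X, hX1, hX2⟩ := h d n hd2 hn p hp
  have h1 := hX X hX1
  have h2 := ha d ((le_max_left _ _).trans hd)
  have hdpos : (1 : ℝ) < d := by exact_mod_cast (by omega : 1 < d)
  have h3 : 0 < (d : ℝ) ^ c := Real.rpow_pos_of_pos (by linarith) _
  rw [Real.norm_of_nonneg (Real.log_nonneg hdpos.le), Real.norm_of_nonneg h3.le] at h2
  rw [← hc] at h1
  have h4 : C * Real.log d ≤ 1 / 4 * (d : ℝ) ^ c := by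
    calc C * Real.log d ≤ C * (1 / (4 * C) * (d : ℝ) ^ c) :=
          mul_le_mul_of_nonneg_left h2 hC.le
      _ = 1 / 4 * (d : ℝ) ^ c := by field_simp
  linarith

end Pool.Agent.Results.MP_61ce55_lc.PortfolioLowerBound
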